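import Pool.Agent.Work.MP_768e99_co.Main

set_option autoImplicit false

namespace Pool.Agent.Work.MP_768e99_r3

open Pool.Agent.Work.MP_768e99_co

/-- Every finite `K_{r,s}`-minor-free graph is `(γ_r ⌈s/(d+1)⌉, d)*`-colourable, and this gives
the number `r + s - 1 - d` of colours asked for in Q1 in the listed ranges. -/
theorem twoRoot {V : Type*} [Finite V] (G : SimpleGraph V) (r s d : ℕ) (hr : 1 ≤ r) (hs : 1 ≤ s)
    (hG : ¬ HasBicliqueMinor G r s) :
    DefColorable G (gam r * ((s + d) / (d + 1))) d ∧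
    ((r = 3 ∧ (d + 1 = s ∨ (3 ≤ d ∧ d + 4 ≤ s ∧ ¬ (d = 3 ∧ s = 9)) ∨ (d = 2 ∧ 3 ∣ s))) ∨
      (2 * gam r ≤ d + 2 ∧ d + 4 * gam r ≤ s) → DefColorable G (r + s - 1 - d) d) := by
  have main := defColorable_main (G := G) r s d hr hs hG
  refine ⟨main, fun h => main.mono ?_⟩
  have hq1 : (s + d) / (d + 1) * (d + 1) ≤ s + d := Nat.div_mul_le_self _ _
  rcases h with ⟨rfl, h⟩ | ⟨h1, h2⟩
  · have hg : gam 3 = 3 := by simp [gam]
    rw [hg]
    rcases h with h | ⟨h1, h2, h3⟩ | ⟨rfl, h2⟩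
    · subst h
      have : (d + 1 + d) / (d + 1) = 1 := by
        apply Nat.div_eq_of_lt_le <;> omega
      rw [this]; omega
    · generalize (s + d) / (d + 1) = q at *
      rcases Nat.lt_or_ge q 3 with hq | hq
      · omega
      rcases Nat.lt_or_ge q 4 with hq' | hq'
      · have hq3 : q = 3 := by omega
        subst hq3
        omega
      · have : 4 * q + d ≤ s + 6 := by
          obtain ⟨t, rfl⟩ : ∃ t, q = t + 4 := ⟨q - 4, by omega⟩
          obtain ⟨u, rfl⟩ : ∃ u, d = u + 3 := ⟨d - 3, by omega⟩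
          nlinarith [Nat.zero_le (t * u)]
        omega
    · obtain ⟨t, rfl⟩ := h2
      omega
  · generalize (s + d) / (d + 1) = q at *
    generalize hgg : gam r = g at *
    have hg1 : 1 ≤ g := by rw [← hgg]; exact gam_pos r
    have key : g * q + d ≤ s := by
      rcases Nat.lt_or_ge q 5 with hq | hq
      · have : g * q ≤ g * 4 := Nat.mul_le_mul_left g (by omega)
        omega
      · obtain ⟨t, rfl⟩ : ∃ t, q = t + 5 := ⟨q - 5, by omega⟩
        obtain ⟨u, rfl⟩ : ∃ u, g = u + 1 := ⟨g - 1, by omega⟩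
        obtain ⟨v, rfl⟩ : ∃ v, d = 2 * u + v := ⟨d - 2 * u, by omega⟩
        nlinarith [Nat.zero_le (t * u), Nat.zero_le (t * v)]
    omega

end Pool.Agent.Work.MP_768e99_r3
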