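import Pool.Agent.Work.MP_768e99_zero.FinalZero
import Pool.Agent.Work.MP_768e99_pocket.C1
import Pool.Agent.Work.MP_768e99_pocket.C2
import Pool.Agent.Work.MP_768e99_pocket.H1
import Pool.Agent.Work.MP_768e99_pocket.T1
import Pool.Agent.Work.MP_768e99_pocket.T2
import Pool.Agent.Work.MP_768e99_pocket.S1
import Pool.Agent.Work.MP_768e99_pocket.N1
import Pool.Agent.Work.MP_768e99_pocket.N2
import Pool.Agent.Work.MP_768e99_pocket.N3
import Pool.Agent.Work.MP_768e99_pocket.N5
import Pool.Agent.Work.MP_768e99_pocket.M1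
import Pool.Agent.Work.MP_768e99_pocket.M2
import Pool.Agent.Work.MP_768e99_pocket.M3
import Pool.Agent.Work.MP_768e99_pocket.M4
import Pool.Agent.Work.MP_768e99_pocket.P1
import Pool.Agent.Work.MP_768e99_pocket.I1
import Pool.Agent.Work.MP_768e99_pocket.Z1
import Pool.Agent.Work.MP_768e99_pocket.E3
import Pool.Agent.Work.MP_768e99_linear.K1X
import Pool.Agent.Work.MP_768e99_linear.E1X
import Pool.Agent.Work.MP_768e99_linear.E2X
import Pool.Agent.Work.MP_768e99_linear.NX
import Pool.Agent.Work.MP_768e99_linear.SAMPLE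
import Pool.Agent.Work.MP_768e99_linear.GEN
import Pool.Agent.Work.MP_768e99_linear.LG1
import Pool.Agent.Work.MP_768e99_linear.LG2
import Pool.Agent.Work.MP_768e99_linear.QB
import Pool.Agent.Work.MP_768e99_linear.HALL2
import Pool.Agent.Work.MP_768e99_linear.CW
import Pool.Agent.Work.MP_768e99_linear.SPL
import Pool.Agent.Work.MP_768e99_linear.DOM0
import Pool.Agent.Work.MP_768e99_linear.LAYER
import Pool.Agent.Work.MP_768e99_linear.CDSP
import Pool.Agent.Work.MP_768e99_zero.TRANS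
import Pool.Agent.Work.MP_768e99_zero.DENSE
import Pool.Agent.Work.MP_768e99_zero.MD
import Pool.Agent.Work.MP_768e99_zero.GLUE
import Pool.Agent.Work.MP_768e99_zero.MEN
import Pool.Agent.Work.MP_768e99_zero.SD1
import Pool.Agent.Work.MP_768e99_zero.SD2
import Pool.Agent.Work.MP_768e99_zero.SD3
import Pool.Agent.Work.MP_768e99_zero.SD
import Pool.Agent.Work.MP_768e99_zero.ROOT
import Pool.Agent.Work.MP_768e99_zero.D0

set_option autoImplicit false

namespace Pool.Agent.Work.MP_768e99_r3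

open Pool.Agent.Work.MP_768e99_co Pool.Agent.Work.MP_768e99_pocket
  Pool.Agent.Work.MP_768e99_linear Pool.Agent.Work.MP_768e99_zero

/-- Let `m = min r s`, `M = max r s`, `L = ⌊log₂ M⌋ + 1`. Every finite `K_{r,s}`-minor-free graph
is `(r + s - 1 - d, d)*`-colourable, if `d ≥ 1` and `M - d ≥ 2 * 10^14 * m * L^6`, or if `d = 0`
and `M ≥ 3 * 10^28 * m * L^12`. -/
theorem almostLinear {V : Type*} [Finite V] (G : SimpleGraph V) (r s d : ℕ) (hr : 1 ≤ r) (hs : 1 ≤ s)
    (h : d + (if d = 0 then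
        30000000000000000000000000000 * min r s * (Nat.log 2 (max r s) + 1) ^ 12
      else 200000000000000 * min r s * (Nat.log 2 (max r s) + 1) ^ 6) ≤ max r s)
    (hG : ¬ HasBicliqueMinor G r s) : DefColorable G (r + s - 1 - d) d := by
  have hCDS : CDSPacking := CDSP (SAMPLE K1X E1X E2X NX E3 I1 N3 Z1) (DOM0 GEN N3)
    (LAYER GEN N3 CW SPL LG1 LG2 QB HALL2) Z1
  have hP : PocketLin := pocketLin_of H1 T1 T2 S1 N1 N2 N5 M1 M2 M3 M4 P1 hCDS
  exact final_all C1 C2 hP (D0 TRANS DENSE MD (GLUE TRANS)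
    (ROOT hCDS MEN (SD N1 N2 N5 P1 SD1 SD2 SD3)) hP T2) G r s d hr hs hG h

end Pool.Agent.Work.MP_768e99_r3
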